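import Mathlib

set_option autoImplicit false

/-!
# Symplectic automorphisms of prime order with anticanonical quotient: the homological data

`M` is a closed simply connected symplectic 4-manifold which is not rational, `g` a
symplectomorphism of prime order `p`, `Z = M / g` the quotient. `Aut p` records the homological
data of `(M, g)` and the standard facts on them which are used. `Data p` adds an effective cycle
in the class of a positive multiple `- m K_Z` of the anticanonical class of `Z`. `RatQuot p` is the
case of a rational quotient.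
-/

namespace Pool.Agent.H91.CQ

open scoped BigOperators

/-- The lattice `H²(M; ℤ)` with the intersection form and the action of `g`. -/
structure Lat (p : ℕ) where
  /-- `H²(M; ℤ)`, a free group of finite rank -/
  H : Type
  [grp : AddCommGroup H]
  [free : Module.Free ℤ H]
  [fin : Module.Finite ℤ H]
  /-- the intersection form -/
  B : H → H → ℤ
  B_add : ∀ x y z, B (x + y) z = B x z + B y z
  B_symm : ∀ x y, B x y = B y x
  /-- the action of the symplectomorphism on `H²(M; ℤ)` -/
  g : H → H
  g_add : ∀ x y, g (x + y) = g x + g y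
  isom : ∀ x y, B (g x) (g y) = B x y
  order : ∀ x, g^[p] x = x
  /-- the invariant part is non-degenerate -/
  nondeg : ∀ x, g x = x → (∀ y, g y = y → B x y = 0) → x = 0
  /-- `b⁺(M)` and `b⁻(M)` -/
  bp : ℕ
  bm : ℕ
  rank : Module.finrank ℤ H = bp + bm

attribute [instance] Lat.grp Lat.free Lat.fin

namespace Lat

variable {p : ℕ} (L : Lat p)

/-- the map `g` as a homomorphism -/
def gHom : L.H →+ L.H := AddMonoidHom.mk' L.g L.g_add

/-- the invariant part -/
def inv : AddSubgroup L.H := L.gHom.eqLocus (AddMonoidHom.id L.H)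

/-- `b₂(Z)`, the rank of the invariant part of `H²(M; ℤ)`. -/
noncomputable def b : ℕ := Module.finrank ℤ L.inv

/-- `12 χ_h(M) = 3 (χ(M) + σ(M)) = 6 (1 + b⁺(M))`. -/
def chi12 : ℤ := 6 * (1 + L.bp)

/-- The Euler characteristic of `M`. -/
def euler : ℤ := 2 + (L.bp + L.bm)

/-- The signature of `M`. -/
def sign : ℤ := L.bp - L.bm

/-- `b⁺(Z) = 1`: Hodge index theorem on the invariant part. -/
def Hodge : Prop :=
  ∀ x y, L.g x = x → L.g y = y → 0 < L.B x x → L.B x x * L.B y y ≤ L.B x y ^ 2

end Lat

/-- The lattice with the canonical class and the pairing with the symplectic form. -/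
structure Cls (p : ℕ) extends Lat p where
  /-- the canonical class -/
  K : H
  gK : g K = K
  /-- `K² = 2 χ + 3 σ` -/
  KK : B K K = 2 * toLat.euler + 3 * toLat.sign
  /-- the pairing with the symplectic form -/
  area : H → ℝ
  area_add : ∀ x y, area (x + y) = area x + area y

/-- `c₁²(M) = K²`. -/
def Cls.c1sq {p : ℕ} (D : Cls p) : ℤ := D.B D.K D.K

/-- the area of a surface if it is a sphere of square `-1`, and `0` otherwise -/
noncomputable def exc (γ : ℕ) (s : ℤ) (A : ℝ) : ℝ := if γ = 0 ∧ s = -1 then A else 0

/-- The homological data of a symplectomorphism `g` of prime order `p` of a closed simply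
connected symplectic 4-manifold `M` which is not rational. -/
structure Aut (p : ℕ) extends Cls p where
  /-- the index set of the surfaces fixed pointwise by `g` -/
  ι : Type
  [fint : Fintype ι]
  /-- the classes of the fixed surfaces -/
  F : ι → H
  gF : ∀ i, g (F i) = F i
  /-- the genera of the fixed surfaces -/
  genus : ι → ℕ
  areaF : ∀ i, 0 < area (F i)
  disj : ∀ i j, i ≠ j → B (F i) (F j) = 0
  /-- adjunction formula -/
  adj : ∀ i, B (F i) (F i) + B K (F i) = 2 * genus i - 2
  /-- `M` is not rational: a fixed surface of square `≥ 0` has `K · F ≥ 0` -/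
  nonrat : ∀ i, 0 ≤ B (F i) (F i) → 0 ≤ B K (F i)
  /-- `M` is not rational: the area of `K` is at least the sum of the areas of the exceptional
  spheres among the fixed surfaces -/
  kappa : ∑ i, exc (genus i) (B (F i) (F i)) (area (F i)) ≤ area K
  /-- Edmonds: `(p - 1) ∑ 2 γ ≤ b₂(M) - b₂(Z)` -/
  edmonds : 2 * (p - 1) * (∑ i, genus i) + toLat.b ≤ bp + bm

attribute [instance] Aut.fint

/-- The data of `(M, g)` together with an effective cycle in the class `- m K_Z`, `m ≥ 1`, of the
quotient `Z`. -/
structure Data (p : ℕ) extends Aut p where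
  /-- `- m K_Z` is effective -/
  m : ℕ
  m_pos : 1 ≤ m
  /-- multiplicities of the fixed surfaces in the pullback `∑ a F + R` of an effective cycle in
  the class `- m K_Z` -/
  a : ι → ℕ
  /-- the rest of this pullback -/
  R : H
  /-- `m K = m (p - 1) ∑ F + m (pullback of K_Z)` -/
  anti : m • K + (∑ i, a i • F i) + R = (m * (p - 1)) • ∑ i, F i
  RF : ∀ i, 0 ≤ B R (F i)
  areaR : 0 ≤ area R
  areaR0 : area R = 0 → R = 0
  /-- `m K_Z = 0`, or `b⁺(Z) = 1` -/
  hodge : (R = 0 ∧ ∀ i, a i = 0) ∨ toLat.Hodge

/-- The data of `(M, g)` in the case of a rational quotient `Z`; `Y` is the minimal resolution of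
`Z`. -/
structure RatQuot (p : ℕ) extends Aut p where
  /-- the number of isolated fixed points of `g` -/
  t : ℕ
  /-- the second Betti number of `Y` -/
  bY : ℕ
  /-- `b⁺(Z) = 1` -/
  hodge : toLat.Hodge
  /-- `b⁺(Z) = 1` -/
  b_le : toLat.b ≤ bm + 1
  /-- Edmonds: `b₀ + b₂` of the fixed set is at most `b₂(Z) + 2` -/
  edmonds2 : t + 2 * Fintype.card ι ≤ toLat.b + 2
  /-- an isolated fixed point gives at most `p - 1` exceptional curves of `Y` -/
  resol : bY ≤ toLat.b + (p - 1) * t
  /-- the anticanonical class of a rational surface `Y` with `b₂(Y) ≤ 10` is effective -/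
  eff : bY ≤ 10 → ∃ D : Data p, D.toAut = toAut

end Pool.Agent.H91.CQ
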