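import Pool.Agent.H91.CQ.Defs

set_option autoImplicit false

/-!
# An example of the homological data: the double plane branched along a smooth octic

`M` is the double cover of the plane branched along a smooth curve of degree `8`: the fixed curve
has genus `21` and class `4 K`, `K² = 2`, `b⁺ = 7`, `b⁻ = 37`, and the quotient is the plane. The
lattice of the model is a diagonal one of the signature `(7, 37)`.
-/

namespace Pool.Agent.H91.CQ

open scoped BigOperators

namespace Inst

/-- the space -/
abbrev V : Type := ℤ × (Fin 43 → ℤ)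

/-- the signs: six times `1` and thirty-seven times `-1` -/
def eps : Fin 43 → ℤ := fun i => if i.val < 6 then 1 else -1

/-- the form -/
def form : V →+ V →+ ℤ :=
  AddMonoidHom.mk' (fun x => AddMonoidHom.mk'
    (fun y => 2 * x.1 * y.1 + ∑ i, eps i * x.2 i * y.2 i)
    (fun y z => by
      have : ∑ i, eps i * x.2 i * (y + z).2 i =
          ∑ i, eps i * x.2 i * y.2 i + ∑ i, eps i * x.2 i * z.2 i := by
        rw [← Finset.sum_add_distrib]
        exact Finset.sum_congr rfl (fun i _ => by rw [Prod.snd_add, Pi.add_apply]; ring)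
      rw [this, Prod.fst_add]
      ring))
    (fun x z => by
      ext1 y
      show 2 * (x + z).1 * y.1 + ∑ i, eps i * (x + z).2 i * y.2 i =
        (2 * x.1 * y.1 + ∑ i, eps i * x.2 i * y.2 i) +
        (2 * z.1 * y.1 + ∑ i, eps i * z.2 i * y.2 i)
      have : ∑ i, eps i * (x + z).2 i * y.2 i =
          ∑ i, eps i * x.2 i * y.2 i + ∑ i, eps i * z.2 i * y.2 i := by
        rw [← Finset.sum_add_distrib]
        exact Finset.sum_congr rfl (fun i _ => by rw [Prod.snd_add, Pi.add_apply]; ring)
      rw [this, Prod.fst_add]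
      ring)

lemma form_apply (x y : V) : form x y = 2 * x.1 * y.1 + ∑ i, eps i * x.2 i * y.2 i := rfl

lemma form_plane (a b : ℤ) : form (a, 0) (b, 0) = 2 * a * b := by
  rw [form_apply]
  simp

/-- the involution -/
def inv : V →+ V :=
  AddMonoidHom.mk' (fun x => (x.1, -x.2)) (fun x y => Prod.ext rfl (neg_add x.2 y.2))

lemma inv_apply (x : V) : inv x = (x.1, -x.2) := rfl

lemma inv_eq {x : V} (h : inv x = x) : x = (x.1, 0) := by
  rw [inv_apply] at h
  have h1 : -x.2 = x.2 := congrArg Prod.snd h
  have h2 : x.2 = 0 := by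
    ext i
    have h3 := congrFun h1 i
    rw [Pi.neg_apply] at h3
    show x.2 i = 0
    omega
  exact Prod.ext rfl h2

lemma plane_add (a c : ℤ) : ((a + c, 0) : V) = (a, 0) + (c, 0) := by
  rw [Prod.mk_add_mk, add_zero]

lemma inv_inv (x : V) : inv (inv x) = x := by
  rw [inv_apply, inv_apply, neg_neg]

/-- the area -/
noncomputable def ar : V →+ ℝ := (Int.castAddHom ℝ).comp (AddMonoidHom.fst ℤ (Fin 43 → ℤ))

lemma ar_apply (x : V) : ar x = (x.1 : ℝ) := rfl

end Inst

open Inst

/-- the lattice of the double plane branched along a smooth curve of degree eight -/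
def octicLat : Lat 2 where
  H := V
  B := fun x y => form x y
  B_add := fun x y z => by rw [map_add, AddMonoidHom.add_apply]
  B_symm := fun x y => by
    rw [form_apply, form_apply]
    rw [mul_right_comm]
    congr 1
    exact Finset.sum_congr rfl (fun i _ => by ring)
  g := fun x => inv x
  g_add := fun x y => map_add inv x y
  isom := fun x y => by
    rw [form_apply, form_apply, inv_apply, inv_apply]
    congr 1
    exact Finset.sum_congr rfl (fun i _ => by
      show eps i * (-x.2 i) * (-y.2 i) = _
      ring)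
  order := fun x => inv_inv x
  nondeg := fun x hx h => by
    have h1 := h (1, 0) (by rw [inv_apply, neg_zero])
    rw [inv_eq hx, form_plane] at h1
    rw [inv_eq hx]
    have h2 : x.1 = 0 := by omega
    rw [h2]
    rfl
  bp := 7
  bm := 37
  rank := by simp

/-- the invariant part of the lattice -/
def octicEquiv : ℤ ≃+ octicLat.inv where
  toFun a := ⟨((a, 0) : V), by
    show inv (a, 0) = (a, 0)
    rw [inv_apply, neg_zero]⟩
  invFun x := (x.1 : V).1
  left_inv a := rfl
  right_inv x := by
    apply Subtype.ext
    have h : inv (x.1 : V) = (x.1 : V) := x.2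
    exact (inv_eq h).symm
  map_add' a c := by
    apply Subtype.ext
    exact plane_add a c

lemma octicLat_b : octicLat.b = 1 :=
  (octicEquiv.toIntLinearEquiv.finrank_eq.symm).trans (Module.finrank_self ℤ)

lemma anti_aux : 1 • ((1, 0) : V) + (∑ _i : Unit, 0 • ((4, 0) : V)) + ((3, 0) : V) =
    (1 * (2 - 1)) • ∑ _i : Unit, ((4, 0) : V) := by
  simp only [one_smul, zero_smul, Finset.sum_const_zero, add_zero, Finset.univ_unique,
    Finset.sum_const, Finset.card_singleton]
  rw [Prod.mk_add_mk]
  simp

/-- the data of the double plane branched along a smooth curve of degree eight -/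
noncomputable def octic : Data 2 where
  toLat := octicLat
  K := ((1, 0) : V)
  gK := by
    show inv (1, 0) = (1, 0)
    rw [inv_apply, neg_zero]
  KK := by
    show form (1, 0) (1, 0) = 2 * (2 + ((7 : ℕ) + (37 : ℕ))) + 3 * ((7 : ℕ) - (37 : ℕ))
    rw [form_plane]; norm_num
  area := fun x : V => ar x
  area_add := fun x y => map_add ar x y
  ι := Unit
  F := fun _ => ((4, 0) : V)
  gF := fun _ => by
    show inv (4, 0) = (4, 0)
    rw [inv_apply, neg_zero]
  genus := fun _ => 21
  areaF := fun _ => by
    show 0 < ar (4, 0)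
    rw [ar_apply]; norm_num
  disj := fun i j hij => absurd (Subsingleton.elim i j) hij
  adj := fun _ => by
    show form (4, 0) (4, 0) + form (1, 0) (4, 0) = 2 * ((21 : ℕ) : ℤ) - 2
    rw [form_plane, form_plane]; norm_num
  nonrat := fun _ _ => by
    show 0 ≤ form (1, 0) (4, 0)
    rw [form_plane]; norm_num
  kappa := by
    show ∑ _i : Unit, exc 21 (form (4, 0) (4, 0)) (ar (4, 0)) ≤ ar (1, 0)
    have h : (0 : ℝ) ≤ ar (1, 0) := by
      rw [ar_apply]
      norm_num
    simpa [exc] using h
  edmonds := by
    show 2 * (2 - 1) * (∑ _i : Unit, 21) + octicLat.b ≤ 7 + 37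
    rw [octicLat_b]
    simp
  m := 1
  m_pos := le_rfl
  a := fun _ => 0
  R := ((3, 0) : V)
  anti := anti_aux
  RF := fun _ => by
    show 0 ≤ form (3, 0) (4, 0)
    rw [form_plane]; norm_num
  areaR := by
    show 0 ≤ ar (3, 0)
    rw [ar_apply]; norm_num
  areaR0 := fun h => by
    have h' : ar (3, 0) = 0 := h
    rw [ar_apply] at h'
    norm_num at h'
  hodge := Or.inr (fun x y hx hy _ => by
    have hx' : x = ((x : V).1, 0) := inv_eq hx
    have hy' : y = ((y : V).1, 0) := inv_eq hy
    show form x x * form y y ≤ form x y ^ 2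
    rw [hx', hy', form_plane, form_plane, form_plane]
    apply le_of_eq
    ring)

theorem exists_data : ∃ D : Data 2, D.bp = 7 ∧ D.bm = 37 ∧ D.b = 1 ∧ D.c1sq = 2 := by
  refine ⟨octic, rfl, rfl, octicLat_b, ?_⟩
  show form (1, 0) (1, 0) = 2
  rw [form_plane]
  norm_num

/-- the rational quotient of the octic double plane -/
noncomputable def octicRat : RatQuot 2 where
  toAut := octic.toAut
  t := 0
  bY := 1
  hodge := fun x y hx hy _ => by
    have hx' : x = ((x : V).1, 0) := inv_eq hx
    have hy' : y = ((y : V).1, 0) := inv_eq hy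
    show form x x * form y y ≤ form x y ^ 2
    rw [hx', hy', form_plane, form_plane, form_plane]
    apply le_of_eq
    ring
  b_le := by
    show octicLat.b ≤ 37 + 1
    rw [octicLat_b]
    norm_num
  edmonds2 := by
    show 0 + 2 * Fintype.card Unit ≤ octicLat.b + 2
    rw [octicLat_b]
    simp
  resol := by
    show 1 ≤ octicLat.b + (2 - 1) * 0
    rw [octicLat_b]
  eff := fun _ => ⟨octic, rfl⟩

end Pool.Agent.H91.CQ
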