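import Mathlib
import Pool.Agent.H91.CQ.Defs

set_option autoImplicit false

namespace Pool.Agent.H91.CQ

open scoped BigOperators

namespace Lat

variable {p : ℕ} (L : Lat p)

lemma B_add_right (x y z : L.H) : L.B x (y + z) = L.B x y + L.B x z := by
  rw [L.B_symm, L.B_add, L.B_symm y, L.B_symm z]

/-- the form as a homomorphism -/
def BHom : L.H →+ L.H →+ ℤ :=
  AddMonoidHom.mk' (fun x => AddMonoidHom.mk' (L.B x) (L.B_add_right x)) (fun x y => by
    ext z
    exact L.B_add x y z)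

lemma BHom_apply (x y : L.H) : L.BHom x y = L.B x y := rfl

lemma B_nsmul (n : ℕ) (x y : L.H) : L.B (n • x) y = n * L.B x y := by
  rw [← BHom_apply, map_nsmul, AddMonoidHom.nsmul_apply, nsmul_eq_mul, BHom_apply]

lemma B_nsmul_right (n : ℕ) (x y : L.H) : L.B x (n • y) = n * L.B x y := by
  rw [L.B_symm, L.B_nsmul, L.B_symm]

lemma B_zero (y : L.H) : L.B 0 y = 0 := by
  rw [← BHom_apply, map_zero, AddMonoidHom.zero_apply]

lemma B_neg_right (x y : L.H) : L.B x (-y) = -L.B x y := by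
  rw [← BHom_apply, map_neg, BHom_apply]

lemma B_sum {ι : Type} (s : Finset ι) (f : ι → L.H) (y : L.H) :
    L.B (∑ i ∈ s, f i) y = ∑ i ∈ s, L.B (f i) y := by
  rw [← BHom_apply, map_sum, AddMonoidHom.finsetSum_apply]
  rfl

lemma B_sum_right {ι : Type} (s : Finset ι) (f : ι → L.H) (y : L.H) :
    L.B y (∑ i ∈ s, f i) = ∑ i ∈ s, L.B y (f i) := by
  rw [L.B_symm, L.B_sum]
  exact Finset.sum_congr rfl fun i _ => L.B_symm _ _

lemma g_nsmul (n : ℕ) (x : L.H) : L.g (n • x) = n • L.g x := map_nsmul L.gHom n x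

lemma g_neg (x : L.H) : L.g (-x) = -L.g x := map_neg L.gHom x

end Lat

namespace Cls

variable {p : ℕ} (D : Cls p)

/-- the area as a homomorphism -/
def areaHom : D.H →+ ℝ := AddMonoidHom.mk' D.area D.area_add

lemma areaHom_apply (x : D.H) : D.areaHom x = D.area x := rfl

lemma area_zero : D.area 0 = 0 := map_zero D.areaHom

end Cls

namespace Data

variable {p : ℕ} (D : Data p)

lemma sum_pair (x : D.ι → ℕ) (i : D.ι) :
    D.B (∑ j, x j • D.F j) (D.F i) = x i * D.B (D.F i) (D.F i) := by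
  classical
  rw [D.B_sum, Finset.sum_eq_single i]
  · rw [D.B_nsmul]
  · intro j _ hj
    rw [D.B_nsmul, D.disj j i hj, mul_zero]
  · simp

/-- The coefficient `m (p - 1) - a`. -/
def c (i : D.ι) : ℤ := D.m * (p - 1) - D.a i

/-- Pairing of the decomposition of `m K` with a fixed surface. -/
lemma pair (hp : 1 ≤ p) (i : D.ι) :
    D.m * D.B D.K (D.F i) + D.B D.R (D.F i) = D.c i * D.B (D.F i) (D.F i) := by
  have h := congrArg (fun x => D.B x (D.F i)) D.anti
  have h1 : (D.m * (p - 1)) • ∑ j, D.F j = ∑ j, (fun _ => D.m * (p - 1)) j • D.F j := by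
    rw [Finset.smul_sum]
  simp only [D.B_add] at h
  rw [h1, D.sum_pair, D.sum_pair, D.B_nsmul] at h
  push_cast [hp] at h
  unfold c
  linarith

lemma sq_le (hp : 1 ≤ p) (i : D.ι) :
    D.m * D.B D.K (D.F i) ≤ D.c i * D.B (D.F i) (D.F i) := by
  have h1 := D.pair hp i
  have h2 := D.RF i
  linarith

lemma b2_eq : (D.bp + D.bm : ℤ) = D.chi12 - 2 - D.c1sq := by
  have := D.KK
  unfold Lat.euler Lat.sign at this
  unfold Lat.chi12 Cls.c1sq
  linarith

lemma edm (hp : 1 ≤ p) : 2 * (p - 1) * (∑ i, (D.genus i : ℤ)) + D.b ≤ D.bp + D.bm := by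
  have h := D.edmonds
  have h1 : ((2 * (p - 1) * (∑ i, D.genus i) + D.b : ℕ) : ℤ) ≤
      ((D.bp + D.bm : ℕ) : ℤ) := by exact_mod_cast h
  push_cast [hp] at h1
  exact h1

/-- A bound for `K²` by a genus gives the slope bound. -/
lemma slope_of (hp : 1 ≤ p) (e : ℤ) (he : e ≤ ∑ i, (D.genus i : ℤ))
    (h : (p : ℤ) * D.c1sq ≤ (p - 1) ^ 2 * (2 * e - 2)) :
    (2 * p - 1) * D.c1sq ≤ (p - 1) * (D.chi12 - 2 * p - D.b) := by
  have h1 := D.edm hp
  have h2 := D.b2_eq
  have hp' : (0 : ℤ) ≤ p - 1 := by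
    have : (1 : ℤ) ≤ p := by exact_mod_cast hp
    linarith
  have h3 : 2 * (p - 1) * e ≤ 2 * (p - 1) * ∑ i, (D.genus i : ℤ) :=
    mul_le_mul_of_nonneg_left he (by linarith)
  have h4 : (p - 1 : ℤ) * (2 * (p - 1) * e + D.b) ≤ (p - 1) * (D.bp + D.bm) :=
    mul_le_mul_of_nonneg_left (by linarith) hp'
  rw [h2] at h4
  nlinarith [h, h4]

lemma genus_le (i : D.ι) : (D.genus i : ℤ) ≤ ∑ j, (D.genus j : ℤ) :=
  Finset.single_le_sum (f := fun j => (D.genus j : ℤ)) (fun j _ => by positivity)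
    (Finset.mem_univ i)

/-- The square of a combination of the fixed surfaces. -/
lemma sq_sum (x : D.ι → ℕ) :
    D.B (∑ j, x j • D.F j) (∑ j, x j • D.F j) = ∑ j, (x j : ℤ) ^ 2 * D.B (D.F j) (D.F j) := by
  have h : D.B (∑ j, x j • D.F j) (∑ j, x j • D.F j) =
      ∑ i, D.B (∑ j, x j • D.F j) (x i • D.F i) := D.B_sum_right _ _ _
  rw [h]
  refine Finset.sum_congr rfl fun i _ => ?_
  rw [D.B_nsmul_right, D.sum_pair]
  ring

/-- The case `m K_Z = 0`. -/
lemma slope_zero (hp : 2 ≤ p) (hR : D.R = 0) (ha : ∀ i, D.a i = 0) :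
    D.c1sq ≤ 0 ∨ (2 * p - 1) * D.c1sq ≤ (p - 1) * (D.chi12 - 2 * p - D.b) := by
  classical
  have hp1 : 1 ≤ p := by omega
  have hp' : (2 : ℤ) ≤ p := by exact_mod_cast hp
  have hm : (1 : ℤ) ≤ D.m := by exact_mod_cast D.m_pos
  have hc : ∀ i, D.c i = D.m * (p - 1) := by
    intro i
    unfold c
    rw [ha i]
    simp
  -- K · F = (p - 1) F²
  have hK : ∀ i, D.B D.K (D.F i) = (p - 1) * D.B (D.F i) (D.F i) := by
    intro i
    have h := D.pair hp1 i
    rw [hR, hc i, D.B_zero, add_zero] at h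
    have : (D.m : ℤ) * (D.B D.K (D.F i) - (p - 1) * D.B (D.F i) (D.F i)) = 0 := by linarith
    rcases mul_eq_zero.mp this with h0 | h0
    · linarith
    · linarith
  have hF : ∀ i, (p : ℤ) * D.B (D.F i) (D.F i) = 2 * D.genus i - 2 := by
    intro i
    have h := D.adj i
    rw [hK i] at h
    linarith
  have hKK : D.c1sq = (p - 1) ^ 2 * ∑ i, D.B (D.F i) (D.F i) := by
    have h := D.anti
    have h0 : (∑ i, D.a i • D.F i) = 0 := Finset.sum_eq_zero fun i _ => by rw [ha i, zero_smul]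
    rw [hR, h0, add_zero, add_zero, Finset.smul_sum] at h
    have h1 : D.B (D.m • D.K) (D.m • D.K) =
        D.B (∑ i, (D.m * (p - 1)) • D.F i) (∑ i, (D.m * (p - 1)) • D.F i) := by rw [h]
    rw [D.sq_sum (fun _ => D.m * (p - 1)), D.B_nsmul, D.B_nsmul_right] at h1
    rw [← Finset.mul_sum] at h1
    push_cast [hp1] at h1
    have h2 : (D.m : ℤ) ^ 2 * (D.c1sq - (p - 1) ^ 2 * ∑ i, D.B (D.F i) (D.F i)) = 0 := by
      unfold Cls.c1sq
      linarith
    rcases mul_eq_zero.mp h2 with h3 | h3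
    · have := pow_eq_zero_iff (two_ne_zero) |>.mp h3
      linarith
    · linarith
  by_cases hex : ∃ i, 1 ≤ D.genus i
  · right
    refine D.slope_of hp1 (∑ i, (D.genus i : ℤ)) le_rfl ?_
    rw [hKK]
    have h1 : (p : ℤ) * ∑ i, D.B (D.F i) (D.F i) ≤ 2 * (∑ i, (D.genus i : ℤ)) - 2 := by
      obtain ⟨i, hi⟩ := hex
      rw [Finset.mul_sum, Finset.sum_congr rfl fun i _ => hF i]
      rw [← Finset.add_sum_erase Finset.univ (fun i => 2 * (D.genus i : ℤ) - 2)
          (Finset.mem_univ i),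
        ← Finset.add_sum_erase Finset.univ (fun i => (D.genus i : ℤ)) (Finset.mem_univ i)]
      have h2 : ∑ j ∈ Finset.univ.erase i, (2 * (D.genus j : ℤ) - 2) ≤
          ∑ j ∈ Finset.univ.erase i, 2 * (D.genus j : ℤ) :=
        Finset.sum_le_sum fun j _ => by linarith
      rw [← Finset.mul_sum] at h2
      linarith
    have h3 := mul_le_mul_of_nonneg_left h1 (sq_nonneg ((p : ℤ) - 1))
    linarith
  · left
    push Not at hex
    rw [hKK]
    have h1 : ∑ i, D.B (D.F i) (D.F i) ≤ 0 := by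
      refine Finset.sum_nonpos fun i _ => ?_
      have h2 := hF i
      have h3 : D.genus i = 0 := by
        have := hex i
        omega
      rw [h3] at h2
      push_cast at h2
      by_contra h4
      push Not at h4
      nlinarith
    exact mul_nonpos_of_nonneg_of_nonpos (sq_nonneg _) h1

/-- A fixed surface of genus at least one and positive coefficient. -/
lemma slope_pos (hp : 2 ≤ p)
    (hodge : ∀ x y, D.g x = x → D.g y = y → 0 < D.B x x → D.B x x * D.B y y ≤ D.B x y ^ 2)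
    (i : D.ι) (hc : 0 < D.c i) (hg : 1 ≤ D.genus i) :
    D.c1sq ≤ 0 ∨ (2 * p - 1) * D.c1sq ≤ (p - 1) * (D.chi12 - 2 * p - D.b) := by
  have hp1 : 1 ≤ p := by omega
  have hp' : (2 : ℤ) ≤ p := by exact_mod_cast hp
  have hm : (1 : ℤ) ≤ D.m := by exact_mod_cast D.m_pos
  have hg' : (1 : ℤ) ≤ D.genus i := by exact_mod_cast hg
  have hle := D.sq_le hp1 i
  have hadj := D.adj i
  have hcm : D.c i ≤ D.m * (p - 1) := by
    unfold c
    have : (0 : ℤ) ≤ D.a i := by positivity
    linarith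
  have hnr := D.nonrat i
  have hsym : D.B (D.F i) D.K = D.B D.K (D.F i) := D.B_symm _ _
  set x := D.B (D.F i) (D.F i) with hx
  set y := D.B D.K (D.F i) with hy
  set γ : ℤ := (D.genus i : ℤ) with hγ
  have hx0 : 0 ≤ x := by
    by_contra hneg
    push Not at hneg
    have h1 : D.c i * x < 0 := mul_neg_of_pos_of_neg hc hneg
    have h2 : y < 0 := by
      by_contra h3
      push Not at h3
      nlinarith
    linarith
  have hy0 : 0 ≤ y := hnr hx0
  by_cases hK : D.c1sq ≤ 0
  · exact Or.inl hK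
  push Not at hK
  rcases hx0.eq_or_lt with hx1 | hx1
  · -- isotropic: contradiction with `K² > 0`
    exfalso
    have hy1 : y = 0 := by
      have : (D.m : ℤ) * y ≤ 0 := by rw [← hx1, mul_zero] at hle; exact hle
      nlinarith
    have hF0 : D.F i ≠ 0 := by
      intro h0
      have := D.areaF i
      rw [h0, D.area_zero] at this
      exact lt_irrefl _ this
    have hex : ∃ z, D.g z = z ∧ D.B (D.F i) z ≠ 0 := by
      by_contra hno
      push Not at hno
      exact hF0 (D.nondeg _ (D.gF i) hno)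
    -- choose the sign
    have hex2 : ∃ z, D.g z = z ∧ 0 < D.B (D.F i) z := by
      obtain ⟨z, hz, hz0⟩ := hex
      rcases lt_or_gt_of_ne hz0 with h | h
      · exact ⟨-z, by rw [D.g_neg, hz], by rw [D.B_neg_right]; linarith⟩
      · exact ⟨z, hz, h⟩
    obtain ⟨z, hz, hz0⟩ := hex2
    set N : ℕ := ((D.B D.K z) ^ 2 + |D.B z z| + 1).toNat with hN
    have hN' : (N : ℤ) = (D.B D.K z) ^ 2 + |D.B z z| + 1 := by
      rw [hN]
      exact Int.toNat_of_nonneg (by positivity)
    have h1 := hodge D.K (N • D.F i + z) D.gK (by rw [D.g_add, D.g_nsmul, D.gF, hz]) hK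
    have h2 : D.B D.K (N • D.F i + z) = D.B D.K z := by
      rw [D.B_add_right, D.B_nsmul_right, ← hy, hy1]
      simp
    have h3 : D.B (N • D.F i + z) (N • D.F i + z) = 2 * N * D.B (D.F i) z + D.B z z := by
      simp only [D.B_add, D.B_add_right, D.B_nsmul, D.B_nsmul_right]
      rw [← hx, ← hx1, D.B_symm z (D.F i)]
      ring
    rw [h2, h3, hN'] at h1
    have h4 : -|D.B z z| ≤ D.B z z := neg_abs_le _
    have h5 : 0 ≤ |D.B z z| := abs_nonneg _
    have h6 : 0 ≤ (D.B D.K z) ^ 2 := sq_nonneg _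
    have hK' : 1 ≤ D.B D.K D.K := hK
    have hz1 : 1 ≤ D.B (D.F i) z := hz0
    set s := D.B (D.F i) z
    set t := (D.B D.K z) ^ 2
    set u := |D.B z z|
    have h7 : t + u + 1 ≤ (t + u + 1) * s := by nlinarith
    have h8 : t + 1 ≤ 2 * (t + u + 1) * s + D.B z z := by nlinarith
    have h9 : (t + 1) * 1 ≤ (2 * (t + u + 1) * s + D.B z z) * D.B D.K D.K :=
      mul_le_mul h8 hK' (by norm_num) (by linarith)
    linarith
  · right
    refine D.slope_of hp1 γ (D.genus_le i) ?_
    have h1 := hodge (D.F i) D.K (D.gF i) D.gK hx1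
    rw [hsym, ← hx] at h1
    change x * D.c1sq ≤ y ^ 2 at h1
    -- K² ≤ (p - 1) y
    have h2 : (D.m : ℤ) * D.c1sq ≤ D.c i * y := by
      have h3 : x * (D.m * D.c1sq) ≤ x * (D.c i * y) := by
        have h4 : (D.m : ℤ) * y * y ≤ D.c i * x * y := mul_le_mul_of_nonneg_right hle hy0
        nlinarith
      exact le_of_mul_le_mul_left h3 hx1
    have h3 : D.c1sq ≤ (p - 1) * y := by
      have h4 : D.c i * y ≤ D.m * (p - 1) * y := mul_le_mul_of_nonneg_right hcm hy0
      have h5 : (D.m : ℤ) * D.c1sq ≤ D.m * ((p - 1) * y) := by linarith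
      exact le_of_mul_le_mul_left h5 (by linarith)
    -- p y ≤ (p - 1) (2 γ - 2)
    have h4 : (p : ℤ) * y ≤ (p - 1) * (2 * γ - 2) := by
      have h5 : (D.m + D.c i) * y ≤ D.c i * (2 * γ - 2) := by
        have : x = 2 * γ - 2 - y := by linarith
        rw [this] at hle
        nlinarith
      have h6 : (0 : ℤ) ≤ 2 * γ - 2 := by linarith
      have h7 : (p : ℤ) * D.c i * (2 * γ - 2) ≤ (p - 1) * (D.m + D.c i) * (2 * γ - 2) := by
        apply mul_le_mul_of_nonneg_right _ h6
        nlinarith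
      have h8 : (D.m + D.c i) * (p * y) ≤ (D.m + D.c i) * ((p - 1) * (2 * γ - 2)) := by
        have := mul_le_mul_of_nonneg_left h5 (show (0 : ℤ) ≤ p by linarith)
        nlinarith
      exact le_of_mul_le_mul_left h8 (by linarith)
    have h5 : (p : ℤ) * D.c1sq ≤ p * ((p - 1) * y) := mul_le_mul_of_nonneg_left h3 (by linarith)
    have h6 : (p - 1 : ℤ) * (p * y) ≤ (p - 1) * ((p - 1) * (2 * γ - 2)) :=
      mul_le_mul_of_nonneg_left h4 (by linarith)
    nlinarith

/-- All fixed surfaces with positive coefficient are spheres. -/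
lemma slope_sph (hp : 2 ≤ p) (hsph : ∀ i, 0 < D.c i → D.genus i = 0) : D.c1sq ≤ 0 := by
  classical
  have hp1 : 1 ≤ p := by omega
  have hm : (1 : ℤ) ≤ D.m := by exact_mod_cast D.m_pos
  have hE : ∀ i, 0 < D.c i → D.B (D.F i) (D.F i) = -1 ∧ D.c i ≤ D.m := by
    intro i hc
    have hg := hsph i hc
    have hle := D.sq_le hp1 i
    have hadj := D.adj i
    rw [hg] at hadj
    push_cast at hadj
    have hnr := D.nonrat i
    set x := D.B (D.F i) (D.F i)
    set y := D.B D.K (D.F i)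
    have hx : x < 0 := by
      by_contra h
      push Not at h
      have := hnr h
      linarith
    have hy : y = -2 - x := by linarith
    rw [hy] at hle
    have h1 : (D.m + D.c i) * (-x) ≤ 2 * D.m := by linarith
    have hx2 : -x < 2 := by
      by_contra h
      push Not at h
      nlinarith
    have hx3 : x = -1 := by linarith [show x ≤ -1 from by omega, show -2 < x from by linarith]
    refine ⟨hx3, ?_⟩
    rw [hx3] at h1
    linarith
  -- areas
  set e : D.ι → ℝ := fun i => exc (D.genus i) (D.B (D.F i) (D.F i)) (D.area (D.F i)) with he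
  have harea : (D.m : ℝ) * D.area D.K =
      ∑ i, (D.c i : ℝ) * D.area (D.F i) - D.area D.R := by
    have h := congrArg D.areaHom D.anti
    simp only [map_add, map_nsmul, map_sum, nsmul_eq_mul] at h
    simp only [D.areaHom_apply] at h
    push_cast [hp1] at h
    have h1 : ∑ i, (D.c i : ℝ) * D.area (D.F i) =
        (D.m : ℝ) * (p - 1) * ∑ i, D.area (D.F i) - ∑ i, (D.a i : ℝ) * D.area (D.F i) := by
      rw [Finset.mul_sum, ← Finset.sum_sub_distrib]
      refine Finset.sum_congr rfl fun i _ => ?_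
      unfold c
      push_cast
      ring
    rw [h1]
    linarith
  have hmR : (1 : ℝ) ≤ D.m := by exact_mod_cast D.m_pos
  have hterm : ∀ i, 0 ≤ (D.m : ℝ) * e i - (D.c i : ℝ) * D.area (D.F i) := by
    intro i
    have hA := D.areaF i
    have he0 : 0 ≤ e i := by
      simp only [he, exc]
      split_ifs
      · exact hA.le
      · exact le_rfl
    by_cases hc : 0 < D.c i
    · obtain ⟨h1, h2⟩ := hE i hc
      have h3 : e i = D.area (D.F i) := by
        simp only [he, exc]
        rw [if_pos ⟨hsph i hc, h1⟩]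
      have h4 : (D.c i : ℝ) ≤ D.m := by exact_mod_cast h2
      rw [h3]
      nlinarith
    · have h4 : (D.c i : ℝ) ≤ 0 := by exact_mod_cast not_lt.mp hc
      nlinarith
  have hsum : ∑ i, ((D.m : ℝ) * e i - (D.c i : ℝ) * D.area (D.F i)) + D.area D.R ≤ 0 := by
    have hk := D.kappa
    have h1 : (D.m : ℝ) * ∑ i, e i ≤ D.m * D.area D.K :=
      mul_le_mul_of_nonneg_left hk (by linarith)
    rw [Finset.sum_sub_distrib, ← Finset.mul_sum]
    linarith
  have hR0 := D.areaR
  have hsum0 : 0 ≤ ∑ i, ((D.m : ℝ) * e i - (D.c i : ℝ) * D.area (D.F i)) :=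
    Finset.sum_nonneg fun i _ => hterm i
  have hR : D.R = 0 := D.areaR0 (by linarith)
  have hall : ∀ i, (D.m : ℝ) * e i - (D.c i : ℝ) * D.area (D.F i) = 0 := by
    have h1 : ∑ i, ((D.m : ℝ) * e i - (D.c i : ℝ) * D.area (D.F i)) = 0 := by linarith
    intro i
    exact (Finset.sum_eq_zero_iff_of_nonneg fun i _ => hterm i).mp h1 i (Finset.mem_univ i)
  -- the coefficients
  set ε : D.ι → ℕ := fun i =>
    if D.genus i = 0 ∧ D.B (D.F i) (D.F i) = -1 then 1 else 0 with hε
  have hcε : ∀ i, D.c i = D.m * ε i := by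
    intro i
    have hA := D.areaF i
    have h1 := hall i
    have h2 : e i = (ε i : ℝ) * D.area (D.F i) := by
      simp only [he, hε, exc]
      split_ifs <;> simp
    rw [h2] at h1
    have h3 : ((D.m : ℝ) * ε i - D.c i) * D.area (D.F i) = 0 := by linarith
    rcases mul_eq_zero.mp h3 with h4 | h4
    · have h5 : (D.c i : ℝ) = D.m * ε i := by linarith
      exact_mod_cast h5
    · exact absurd h4 hA.ne'
  have hmK : D.m • D.K = ∑ i, (D.m * ε i) • D.F i := by
    have h := D.anti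
    rw [hR, add_zero, Finset.smul_sum] at h
    have h1 : ∑ i, (D.m * (p - 1)) • D.F i =
        ∑ i, (D.m * ε i) • D.F i + ∑ i, D.a i • D.F i := by
      rw [← Finset.sum_add_distrib]
      refine Finset.sum_congr rfl fun i _ => ?_
      rw [← add_smul]
      congr 1
      have h2 := hcε i
      unfold c at h2
      have h3 : ((D.m * (p - 1) : ℕ) : ℤ) = ((D.m * ε i + D.a i : ℕ) : ℤ) := by
        push_cast [hp1]
        linarith
      exact_mod_cast h3
    rw [h1] at h
    exact add_right_cancel h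
  have hsq : (D.m : ℤ) ^ 2 * D.c1sq ≤ 0 := by
    have h1 : D.B (D.m • D.K) (D.m • D.K) =
        D.B (∑ i, (D.m * ε i) • D.F i) (∑ i, (D.m * ε i) • D.F i) := by rw [hmK]
    rw [D.sq_sum (fun i => D.m * ε i), D.B_nsmul, D.B_nsmul_right] at h1
    have h2 : ∑ i, ((D.m * ε i : ℕ) : ℤ) ^ 2 * D.B (D.F i) (D.F i) ≤ 0 := by
      refine Finset.sum_nonpos fun i _ => ?_
      by_cases hi : D.genus i = 0 ∧ D.B (D.F i) (D.F i) = -1
      · rw [hi.2]
        have := sq_nonneg ((D.m * ε i : ℕ) : ℤ)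
        linarith
      · have : ε i = 0 := by simp only [hε]; rw [if_neg hi]
        rw [this]
        simp
    unfold Cls.c1sq
    nlinarith
  by_contra hcon
  push Not at hcon
  have : (0 : ℤ) < D.m ^ 2 * D.c1sq := by positivity
  linarith

/-- The slope bound. -/
theorem slope (hp : 2 ≤ p) :
    D.c1sq ≤ 0 ∨ (2 * p - 1) * D.c1sq ≤ (p - 1) * (D.chi12 - 2 * p - D.b) := by
  rcases D.hodge with h | h
  · exact D.slope_zero hp h.1 h.2
  · by_cases hex : ∃ i, 0 < D.c i ∧ 1 ≤ D.genus i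
    · obtain ⟨i, hc, hg⟩ := hex
      exact D.slope_pos hp h i hc hg
    · push Not at hex
      refine Or.inl (D.slope_sph hp fun i hc => ?_)
      have := hex i hc
      omega

/-- The strict Bogomolov-Miyaoka-Yau inequality. -/
theorem bmy (hp : 2 ≤ p) : 3 * D.sign < D.euler := by
  have h := D.slope hp
  have h2 := D.b2_eq
  have hp' : (2 : ℤ) ≤ p := by exact_mod_cast hp
  have hb : (0 : ℤ) ≤ D.b := by positivity
  have hbp : (0 : ℤ) ≤ D.bp := by positivity
  by_contra hcon
  push Not at hcon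
  unfold Lat.sign Lat.euler at hcon
  have hc : D.chi12 = 6 * (1 + D.bp) := rfl
  have hK : 9 * (1 + (D.bp : ℤ)) ≤ 2 * D.c1sq := by linarith
  rcases h with h | h
  · linarith
  · have h3 : (p - 1 : ℤ) * (D.chi12 - 2 * p - D.b) ≤ (p - 1) * (6 * (1 + D.bp)) := by
      apply mul_le_mul_of_nonneg_left _ (by linarith)
      linarith
    have h4 : (2 * p - 1 : ℤ) * (9 * (1 + D.bp)) ≤ (2 * p - 1) * (2 * D.c1sq) :=
      mul_le_mul_of_nonneg_left hK (by linarith)
    nlinarith

end Data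

/-- The case of a rational quotient, on the line `3 σ = χ` and above. -/
theorem RatQuot.bound {p : ℕ} (hp : 2 ≤ p) (D : RatQuot p) (h : D.euler ≤ 3 * D.sign) :
    11 ≤ D.bY ∧ (Nonempty D.ι → 11 ≤ p * D.b ∧ 11 ≤ p * (D.bm + 1)) := by
  have hY : 11 ≤ D.bY := by
    by_contra hcon
    obtain ⟨E, hE⟩ := D.eff (by omega)
    have h1 := E.bmy hp
    rw [hE] at h1
    linarith
  refine ⟨hY, fun hne => ?_⟩
  have hcard : 1 ≤ Fintype.card D.ι := Fintype.card_pos
  have ht : D.t ≤ D.b := by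
    have := D.edmonds2
    omega
  have h1 : D.bY ≤ p * D.b := by
    have h2 := D.resol
    have h3 : (p - 1) * D.t ≤ (p - 1) * D.b := Nat.mul_le_mul_left _ ht
    have h4 : D.b + (p - 1) * D.b = p * D.b := by
      obtain ⟨q, rfl⟩ : ∃ q, p = q + 1 := ⟨p - 1, by omega⟩
      simp
      ring
    omega
  have h5 : p * D.b ≤ p * (D.bm + 1) := Nat.mul_le_mul_left _ D.b_le
  exact ⟨hY.trans h1, (hY.trans h1).trans h5⟩

end Pool.Agent.H91.CQ
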